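import Pool.Agent.R169.MC.Fin
import Pool.Agent.R169.MC.Bij
import Pool.Agent.R169.MC.Cmp
import Pool.Agent.R169.MC.DihE
import Pool.Agent.R169.MC.DihO
import Pool.Agent.R169.MC.FixC
import Pool.Agent.R169.MC.FixE
import Pool.Agent.R169.MC.GA1
import Pool.Agent.R169.MC.GA2
import Pool.Agent.R169.MC.Red
import Pool.Agent.R169.MC.Rpr
import Pool.Agent.R169.MC.Sgn
import Pool.Agent.R169.MC.UNeg
import Pool.Agent.R169.MC.UPos
import Pool.Agent.R169.MC.Wrd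
import Pool.Agent.R169.MC.Nei
import Pool.Agent.R169.MC.CN
import Pool.Agent.R169.MC.Even
import Pool.Agent.R169.MC.Odd

/-!
# The m-caliber of discriminant `pq` modulo 4

`κ⁺(pq) ≡ 1 - (-1)^{x_p} (q/p) (mod 4)` for primes `p < q` congruent to 1 modulo 4 with
`p = x_p² + y_p²`, `q = x_q² + y_q²`, `0 < x_p < y_p`, `0 < x_q < y_q` and `x_p ≢ x_q (mod 2)`.
-/

namespace Pool.Agent.Results.MP_6dddb9_nt.Caliber

/-- `w` is an m-reduced real quadratic irrational of discriminant `D`: `w` is irrational, it is a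
root of a primitive integral polynomial `a X² + b X + c`, `a > 0`, of discriminant `D`, and
`w > 1`, `0 < w' < 1` for the other root `w'` -/
def MReduced (D : ℤ) (w : ℝ) : Prop :=
  Irrational w ∧ ∃ (a b c : ℤ) (w' : ℝ), 0 < a ∧ Int.gcd (Int.gcd a b) c = 1 ∧
    b ^ 2 - 4 * a * c = D ∧ (a : ℝ) * w ^ 2 + b * w + c = 0 ∧
    (a : ℝ) * w' ^ 2 + b * w' + c = 0 ∧ w' ≠ w ∧ 1 < w ∧ 0 < w' ∧ w' < 1

/-- the m-caliber `κ⁺(D)` -/
noncomputable def kappaPlus (D : ℤ) : ℕ := Set.ncard {w : ℝ | MReduced D w}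

/-- `κ⁺(pq) ≡ 1 - (-1)^{x_p} (q/p) (mod 4)`; here `x = x_p` and `z = x_q`. -/
theorem result (p q x y z t : ℕ) [Fact p.Prime] (hq : q.Prime) (hpq : p < q)
    (hp4 : p % 4 = 1) (hq4 : q % 4 = 1) (hx : 0 < x) (hxy : x < y) (hp2 : p = x ^ 2 + y ^ 2)
    (hz : 0 < z) (hzt : z < t) (hq2 : q = z ^ 2 + t ^ 2) (hpar : x % 2 ≠ z % 2) :
    {w : ℝ | MReduced ((p : ℤ) * q) w}.Finite ∧
    (kappaPlus ((p : ℤ) * q) : ℤ) ≡ 1 - (-1) ^ x * legendreSym p q [ZMOD 4] := by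
  have hp : p.Prime := Fact.out
  have hS : {w : ℝ | MReduced ((p : ℤ) * q) w}
      = {w : ℝ | Pool.Agent.R169.MC.IsMRed ((p : ℤ) * q) w} := by
    ext w
    exact Pool.Agent.R169.MC.Fin.MR_iff _ w
  have hPQ : Pool.Agent.R169.MC.PQ (p : ℤ) (q : ℤ) ((p : ℤ) * q) :=
    ⟨Nat.prime_iff_prime_int.1 hp, Nat.prime_iff_prime_int.1 hq, by exact_mod_cast hp.pos,
      by exact_mod_cast hpq, by omega, by omega, rfl⟩
  refine ⟨?_, ?_⟩
  · rw [hS]
    exact Pool.Agent.R169.MC.Fin.fin_of hPQ Pool.Agent.R169.MC.FixC.main2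
      Pool.Agent.R169.MC.Bij.main
  · have hCMP := Pool.Agent.R169.MC.Cmp.main
    have hNEI : Pool.Agent.R169.MC.S_NEI := Pool.Agent.R169.MC.Nei.main
      Pool.Agent.R169.MC.Red.main1 (Pool.Agent.R169.MC.Red.main2 hCMP)
      Pool.Agent.R169.MC.Rpr.main
    have hUN : Pool.Agent.R169.MC.S_UNEG := Pool.Agent.R169.MC.UNeg.main
      Pool.Agent.R169.MC.Wrd.main hCMP
    have hODD : Pool.Agent.R169.MC.S_ODD := Pool.Agent.R169.MC.Odd.main
      Pool.Agent.R169.MC.DihO.main Pool.Agent.R169.MC.Wrd.main hUN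
      Pool.Agent.R169.MC.GA1.main Pool.Agent.R169.MC.Sgn.main Pool.Agent.R169.MC.FixC.main
      Pool.Agent.R169.MC.FixE.main Pool.Agent.R169.MC.FixC.main2 Pool.Agent.R169.MC.CN.main hNEI
    have hUP : Pool.Agent.R169.MC.S_UPOS := Pool.Agent.R169.MC.UPos.main
      Pool.Agent.R169.MC.Wrd.main hCMP
    have hEVEN : Pool.Agent.R169.MC.S_EVEN := Pool.Agent.R169.MC.Even.main
      Pool.Agent.R169.MC.DihE.main Pool.Agent.R169.MC.Wrd.main hUP
      Pool.Agent.R169.MC.GA2.main Pool.Agent.R169.MC.Sgn.main Pool.Agent.R169.MC.FixC.main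
      Pool.Agent.R169.MC.FixE.main Pool.Agent.R169.MC.FixC.main2
    have h := Pool.Agent.R169.MC.Main.main Pool.Agent.R169.MC.Bij.main
      Pool.Agent.R169.MC.FixC.main2 hODD hEVEN
      p q x y z t hp hq hpq hp4 hq4 hx hxy hp2 hz hzt hq2 hpar
    unfold kappaPlus
    rw [hS, jacobiSym.legendreSym.to_jacobiSym]
    exact h

end Pool.Agent.Results.MP_6dddb9_nt.Caliber
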